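import Pool.Agent.W2helper78.WH.Final

/-!
# The best constant in the Hardy inequality with weight `(1 + |x|^2)^α`

For every `n ≥ 3` and every real `α ≠ -(n-2)/2` the best constant is determined.
-/

set_option autoImplicit false

open MeasureTheory

namespace Pool.Agent.Results.MP_5b99fd_an.BestConst

/-- The admissible functions: nonzero smooth functions of compact support on `ℝ^n`, with
`∫ (1 + |x|^2)^(α-1) u(x) dx = 0` when `α < -(n-2)/2`. -/
def Admissible (n : ℕ) (α : ℝ) : Set (EuclideanSpace ℝ (Fin n) → ℝ) :=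
  {u | ContDiff ℝ (⊤ : ℕ∞) u ∧ HasCompactSupport u ∧ u ≠ 0 ∧
    (α < -((n : ℝ) - 2) / 2 → ∫ x, (1 + ‖x‖ ^ 2) ^ (α - 1) * u x = 0)}

/-- The quotient `∫ (1 + |x|^2)^α |∇u|^2 dx / ∫ (1 + |x|^2)^(α-1) u^2 dx`. -/
noncomputable def quotient (n : ℕ) (α : ℝ) (u : EuclideanSpace ℝ (Fin n) → ℝ) : ℝ :=
  (∫ x, (1 + ‖x‖ ^ 2) ^ α * ‖gradient u x‖ ^ 2) / ∫ x, (1 + ‖x‖ ^ 2) ^ (α - 1) * u x ^ 2

/-- The best constant: the infimum of the quotient over the admissible functions. -/
noncomputable def bestConst (n : ℕ) (α : ℝ) : ℝ := sInf (quotient n α '' Admissible n α)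

/-- The value of the best constant: `-2α` for `α < -n`, then `-4α - 2n` for
`-n ≤ α < -(n+2)/2`, then `(n + 2α - 2)^2 / 4` for `-(n+2)/2 ≤ α ≤ 1 + n/2`, and
`2n(α - 1)` for `α > 1 + n/2`. -/
noncomputable def value (n : ℕ) (α : ℝ) : ℝ :=
  if α < -(n : ℝ) then -2 * α
  else if α < -((n : ℝ) + 2) / 2 then -4 * α - 2 * n
  else if α ≤ 1 + (n : ℝ) / 2 then (n + 2 * α - 2) ^ 2 / 4
  else 2 * n * (α - 1)

open W2helper78.WH in
theorem result (n : ℕ) (hn : 3 ≤ n) (α : ℝ) (hα : α ≠ -((n : ℝ) - 2) / 2) :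
    IsGLB (quotient n α '' Admissible n α) (value n α) ∧ bestConst n α = value n α := by
  have key : IsGLB (quotient n α '' Admissible n α) (value n α) := by
    constructor
    · rintro _ ⟨u, ⟨hu, hc, h0, hm⟩, rfl⟩
      have hD : 0 < DD α u := DD_pos α hu.continuous hc h0
      have h := lower_all hn hα hu hc hm
      show value n α ≤ NN α u / DD α u
      rw [le_div_iff₀ hD]
      exact h
    · intro L' hL'
      refine upper_all hn hα fun v hv hcv hmv => ?_
      by_cases h0 : v = 0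
      · have h1 : DD α v = 0 := by
          rw [h0]
          simp [DD]
        rw [h1, mul_zero]
        exact NN_nonneg α v
      · have hD : 0 < DD α v := DD_pos α hv.continuous hcv h0
        have h := hL' ⟨v, ⟨hv, hcv, h0, hmv⟩, rfl⟩
        have h2 : L' ≤ NN α v / DD α v := h
        rwa [le_div_iff₀ hD] at h2
  refine ⟨key, ?_⟩
  have hne : (quotient n α '' Admissible n α).Nonempty := by
    by_contra hne
    rw [Set.not_nonempty_iff_eq_empty] at hne
    rw [hne, isGLB_empty_iff] at key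
    have := key (value n α + 1)
    linarith
  exact key.csInf_eq hne

end Pool.Agent.Results.MP_5b99fd_an.BestConst
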